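import Pool.Agent.Helper98.Comp.Final

/-!
# The explosive colour wins the competition on the configuration model

All definitions are in `Pool/Agent/Helper98/Comp/Defs.lean`.
-/

set_option autoImplicit false

namespace Pool.Agent.Results.MP_dcd9d4_pr.ExplosiveColourWins

open MeasureTheory Filter Set Pool.Agent.Helper98.Comp
open scoped ENNReal NNReal Topology

/-- Let the degrees have the law `μ` with values in `{2, 3, ...}` and with the tail
`L(x) x^{-(τ-1)}`, where `2 < τ < 3` and `L` is slowly varying. If the underlying branching process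
of red is explosive and that of blue is not, then `P(N_r ≤ N_b) → 0`, and `N_b` is tight. Both
hold uniformly over all tie breaking rules (the events are: some possible evolution is bad).
Moreover a possible evolution always exists. -/
theorem result :
    (∀ (μ : Measure ℕ) (τ : ℝ) (Ir Ib : Measure ℝ≥0), IsDegreeLaw μ τ → 2 < τ → τ < 3 →
      IsProbabilityMeasure Ir → IsProbabilityMeasure Ib → Explosive μ Ir → ¬ Explosive μ Ib →
      Tendsto (fun n => annealed n μ Ir Ib fun Nr Nb => Nr ≤ Nb) atTop (𝓝 0) ∧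
        ∀ ε : ℝ≥0∞, 0 < ε → ∃ K : ℕ, ∀ n, annealed n μ Ir Ib (fun _ Nb => K < Nb) ≤ ε) ∧
    (∀ (n : ℕ) (d : Fin n → ℕ) (σ : Pairing d) (x : Sym2 (HE d) → ℝ≥0 × ℝ≥0) (ur ub : Fin n),
      ur ≠ ub → ∃ T c, IsOutcome σ x ur ub T c) := by
  refine ⟨fun μ τ Ir Ib hμ hτ hτ' h1 h2 hr hb => main_result hμ hτ hτ' Ir Ib hr hb, ?_⟩
  intro n d σ x ur ub h
  exact exists_outcome σ x h

end Pool.Agent.Results.MP_dcd9d4_pr.ExplosiveColourWins
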